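import Mathlib
import Pool.Agent.Work.MP_03df5c_all.Interface

/-!
# MZ: real multiple zeta values are positive
-/

open Finset

namespace Pool.Agent.Work.MP_03df5c_all

open Pool.Agent.Work.MP_03df5c_h91

/-- A product of summable nonnegative functions of finitely many variables is summable. -/
lemma mz_summable_pi {ι : Type*} [Fintype ι] [DecidableEq ι] (h : ℕ → ℝ) (h0 : ∀ k, 0 ≤ h k)
    (hs : Summable h) : Summable fun n : ι → ℕ => ∏ i, h (n i) := by
  refine summable_of_sum_le (c := ∏ _i : ι, ∑' k, h k) (fun n => Finset.prod_nonneg fun i _ => h0 _)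
    fun T => ?_
  obtain ⟨N, hN⟩ : ∃ N : ℕ, ∀ n ∈ T, ∀ i, n i < N := by
    refine ⟨(T.sup fun n => univ.sup n) + 1, fun n hn i => ?_⟩
    have h1 : n i ≤ univ.sup n := Finset.le_sup (f := n) (Finset.mem_univ i)
    have h2 : univ.sup n ≤ T.sup fun n => univ.sup n :=
      Finset.le_sup (f := fun n : ι → ℕ => univ.sup n) hn
    omega
  calc ∑ n ∈ T, ∏ i, h (n i)
      ≤ ∑ n ∈ Fintype.piFinset (fun _ : ι => range N), ∏ i, h (n i) := by
        apply Finset.sum_le_sum_of_subset_of_nonneg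
        · intro n hn
          rw [Fintype.mem_piFinset]
          intro i
          rw [Finset.mem_range]
          exact hN n hn i
        · intro n _ _
          exact Finset.prod_nonneg fun i _ => h0 _
    _ = ∏ _i : ι, ∑ k ∈ range N, h k := by
        rw [Finset.prod_univ_sum]
    _ ≤ ∏ _i : ι, ∑' k, h k := by
        apply Finset.prod_le_prod
        · intro i _
          exact Finset.sum_nonneg fun k _ => h0 k
        · intro i _
          exact hs.sum_le_tsum _ fun k _ => h0 k

theorem stmt_MZ : Stmt_MZ := by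
  intro s
  obtain ⟨r, s, hpos, hadm⟩ := s
  have hnn : ∀ n : {n : Fin (r + 1) → ℕ // StrictAnti n ∧ ∀ i, 1 ≤ n i},
      0 ≤ ∏ i, 1 / (n.1 i : ℝ) ^ (s i) := fun n => Finset.prod_nonneg fun i _ => by positivity
  have hsum : Summable fun n : {n : Fin (r + 1) → ℕ // StrictAnti n ∧ ∀ i, 1 ≤ n i} =>
      ∏ i, 1 / (n.1 i : ℝ) ^ (s i) := by
    set δ : ℝ := 1 / (r + 1 : ℝ) with hδ
    have hδ0 : 0 < δ := by positivity
    have h1 : Summable fun k : ℕ => 1 / (k : ℝ) ^ (1 + δ) :=
      Real.summable_one_div_nat_rpow.2 (by linarith)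
    have h2 : Summable fun n : Fin (r + 1) → ℕ => ∏ i, 1 / (n i : ℝ) ^ (1 + δ) :=
      mz_summable_pi (ι := Fin (r + 1)) (fun k : ℕ => 1 / (k : ℝ) ^ (1 + δ))
        (fun k => one_div_nonneg.2 (Real.rpow_nonneg (Nat.cast_nonneg k) _)) h1
    refine Summable.of_nonneg_of_le hnn ?_ (h2.comp_injective
      (i := fun n : {n : Fin (r + 1) → ℕ // StrictAnti n ∧ ∀ i, 1 ≤ n i} => n.1)
      Subtype.val_injective)
    rintro ⟨n, hn, hn1⟩
    simp only [Function.comp]
    have hn1' : ∀ i, (1 : ℝ) ≤ n i := fun i => by exact_mod_cast hn1 i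
    have hn0' : ∀ i, (0 : ℝ) < n i := fun i => zero_lt_one.trans_le (hn1' i)
    have hle0 : ∀ i, (n i : ℝ) ≤ n 0 := fun i => by
      exact_mod_cast hn.antitone (Fin.zero_le i)
    -- the product of the `n i ^ δ` is at most `n 0`
    have h3 : ∏ i, (n i : ℝ) ^ δ ≤ n 0 := by
      calc ∏ i, (n i : ℝ) ^ δ ≤ ∏ _i : Fin (r + 1), (n 0 : ℝ) ^ δ :=
            Finset.prod_le_prod (fun i _ => (Real.rpow_pos_of_pos (hn0' i) _).le)
              fun i _ => Real.rpow_le_rpow (hn0' i).le (hle0 i) hδ0.le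
        _ = ((n 0 : ℝ) ^ δ) ^ (r + 1) := by
            rw [Finset.prod_const, Finset.card_univ, Fintype.card_fin]
        _ = n 0 := by
            rw [← Real.rpow_natCast, ← Real.rpow_mul (hn0' 0).le]
            have : δ * ((r + 1 : ℕ) : ℝ) = 1 := by
              rw [hδ]; push_cast; field_simp
            rw [this, Real.rpow_one]
    have h4 : (n 0 : ℝ) * ∏ i, (n i : ℝ) ≤ ∏ i, (n i : ℝ) ^ (s i) := by
      rw [Fin.prod_univ_succ, Fin.prod_univ_succ, ← mul_assoc]
      apply mul_le_mul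
      · calc (n 0 : ℝ) * n 0 = (n 0 : ℝ) ^ 2 := by ring
          _ ≤ _ := pow_le_pow_right₀ (hn1' 0) hadm
      · exact Finset.prod_le_prod (fun i _ => (hn0' _).le) fun i _ => by
          calc (n i.succ : ℝ) = (n i.succ : ℝ) ^ 1 := (pow_one _).symm
            _ ≤ _ := pow_le_pow_right₀ (hn1' _) (hpos _)
      · exact Finset.prod_nonneg fun i _ => (hn0' _).le
      · positivity
    have h5 : ∏ i, (n i : ℝ) ^ (1 + δ) ≤ ∏ i, (n i : ℝ) ^ (s i) := by
      calc ∏ i, (n i : ℝ) ^ (1 + δ) = (∏ i, (n i : ℝ)) * ∏ i, (n i : ℝ) ^ δ := by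
            rw [← Finset.prod_mul_distrib]
            refine Finset.prod_congr rfl fun i _ => ?_
            rw [Real.rpow_add (hn0' i), Real.rpow_one]
        _ ≤ (∏ i, (n i : ℝ)) * n 0 :=
            mul_le_mul_of_nonneg_left h3 (Finset.prod_nonneg fun i _ => (hn0' _).le)
        _ ≤ _ := by rw [mul_comm]; exact h4
    rw [Finset.prod_div_distrib, Finset.prod_div_distrib]
    apply div_le_div_of_nonneg_left
    · simp
    · exact Finset.prod_pos fun i _ => Real.rpow_pos_of_pos (hn0' i) _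
    · exact h5
  -- one positive term
  let n0 : {n : Fin (r + 1) → ℕ // StrictAnti n ∧ ∀ i, 1 ≤ n i} :=
    ⟨fun i => r + 1 - i, by
      constructor
      · intro i j hij
        have hi := i.2
        have hj := j.2
        have : (i : ℕ) < j := hij
        show r + 1 - (j : ℕ) < r + 1 - i
        omega
      · intro i
        have hi := i.2
        show 1 ≤ r + 1 - (i : ℕ)
        omega⟩
  refine hsum.tsum_pos hnn n0 ?_
  apply Finset.prod_pos
  intro i _
  have h1 : (0 : ℝ) < (n0.1 i : ℝ) := by exact_mod_cast n0.2.2 i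
  positivity

end Pool.Agent.Work.MP_03df5c_all
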