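import Mathlib
import Pool.Agent.Work.MP_03df5c_all.Interface

/-!
# TR: the transfer argument
-/

open Finset

namespace Pool.Agent.Work.MP_03df5c_all

/-- A rational polynomial takes `p`-integral values at `p`-integral points for all large `p`. -/
lemma tr_integral {m : ℕ} (g : MvPolynomial (Fin m) ℚ) : ∃ p₀ : ℕ, ∀ (p : ℕ) [Fact p.Prime],
    p₀ ≤ p → ∀ z : Fin m → ℚ_[p], (∀ i, ‖z i‖ ≤ 1) → ‖MvPolynomial.aeval z g‖ ≤ 1 := by
  induction g using MvPolynomial.induction_on with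
  | C a =>
    refine ⟨a.den + 1, fun p _ hp z _ => ?_⟩
    rw [MvPolynomial.aeval_C]
    have h : ¬ p ∣ a.den := fun h => by
      have := Nat.le_of_dvd a.den_pos h
      omega
    simpa using Padic.norm_rat_le_one h
  | add f g hf hg =>
    obtain ⟨p1, h1⟩ := hf
    obtain ⟨p2, h2⟩ := hg
    refine ⟨max p1 p2, fun p _ hp z hz => ?_⟩
    rw [map_add]
    exact (IsUltrametricDist.norm_add_le_max _ _).trans
      (max_le (h1 p ((le_max_left _ _).trans hp) z hz) (h2 p ((le_max_right _ _).trans hp) z hz))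
  | mul_X f i hf =>
    obtain ⟨p1, h1⟩ := hf
    refine ⟨p1, fun p _ hp z hz => ?_⟩
    rw [map_mul, MvPolynomial.aeval_X, norm_mul]
    exact mul_le_one₀ (h1 p hp z hz) (norm_nonneg _) (hz i)

/-- The heart: a relation `1 = f(x)` with `f` in the ideal of the variables is impossible. -/
lemma tr_rational (m : ℕ) (x : Fin m → ℝ) (z : (p : ℕ) → [Fact p.Prime] → Fin m → ℚ_[p])
    (hinf : {p : ℕ | ∃ _ : Fact p.Prime, (∀ i, ‖z p i‖ ≤ (p : ℝ)⁻¹) ∧
      ∀ f : MvPolynomial (Fin m) ℚ, MvPolynomial.aeval x f = 0 →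
        MvPolynomial.aeval (z p) f = 0}.Infinite)
    (g : Fin m → MvPolynomial (Fin m) ℚ)
    (hg : ∑ i, MvPolynomial.aeval x (g i) * x i = 1) : False := by
  choose q hq using fun i => tr_integral (g i)
  obtain ⟨p, ⟨hp, hp1, hp2⟩, hpq⟩ := hinf.exists_gt (∑ i, q i)
  have hlt : ((p : ℝ))⁻¹ < 1 := inv_lt_one_of_one_lt₀ (by exact_mod_cast hp.out.one_lt)
  have hz1 : ∀ i, ‖z p i‖ ≤ 1 := fun i => (hp1 i).trans hlt.le
  have h0 : MvPolynomial.aeval (z p) (1 - ∑ i, g i * MvPolynomial.X i) = 0 := by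
    apply hp2
    simp [hg]
  have h1 : ∑ i, MvPolynomial.aeval (z p) (g i) * z p i = 1 := by
    rw [map_sub, map_one, map_sum, sub_eq_zero] at h0
    simpa using h0.symm
  have h2 : ‖∑ i, MvPolynomial.aeval (z p) (g i) * z p i‖ ≤ (p : ℝ)⁻¹ := by
    apply IsUltrametricDist.norm_sum_le_of_forall_le_of_nonneg (by positivity)
    intro i _
    rw [norm_mul]
    have h3 : ‖MvPolynomial.aeval (z p) (g i)‖ ≤ 1 :=
      hq i p ((Finset.single_le_sum (f := q) (fun _ _ => Nat.zero_le _)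
        (Finset.mem_univ i)).trans hpq.le) (z p) hz1
    calc _ ≤ 1 * (p : ℝ)⁻¹ := mul_le_mul h3 (hp1 i) (norm_nonneg _) zero_le_one
      _ = _ := one_mul _
  rw [h1, norm_one] at h2
  linarith

theorem stmt_TR : Stmt_TR := by
  intro m x z hinf F hF hFx
  by_contra hF0
  -- the subalgebra generated by the `x i`
  let A : Subalgebra ℚ ℂ := Algebra.adjoin ℚ (Set.range fun i => (x i : ℂ))
  have hxA : ∀ i, (x i : ℂ) ∈ A := fun i => Algebra.subset_adjoin ⟨i, rfl⟩
  let X : Fin m → A := fun i => ⟨(x i : ℂ), hxA i⟩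
  let I : Ideal A := Ideal.span (Set.range X)
  let s : Set ℂ := (fun d => F.coeff d / F.coeff 0) '' (F.support : Set (Fin m →₀ ℕ))
  have hsfin : s.Finite := F.support.finite_toSet.image _
  have hsint : ∀ a ∈ s, IsIntegral A a := by
    rintro a ⟨d, _, rfl⟩
    have h1 : IsAlgebraic ℚ (F.coeff d / F.coeff 0) := by
      rw [div_eq_mul_inv]
      exact IsAlgebraic.mul (hF d) (IsAlgebraic.inv (hF 0))
    exact (h1.isIntegral).tower_top
  have hfg : (Subalgebra.toSubmodule (Algebra.adjoin A s)).FG := fg_adjoin_of_finite hsfin hsint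
  -- monomials different from 1 lie in I
  have hmon : ∀ d : Fin m →₀ ℕ, d ≠ 0 → (∏ i, X i ^ d i) ∈ I := by
    intro d hd
    obtain ⟨i, hi⟩ : ∃ i, d i ≠ 0 := by
      by_contra hcon
      push Not at hcon
      exact hd (Finsupp.ext hcon)
    apply Ideal.mem_of_dvd I (a := X i)
    · exact (dvd_pow_self _ hi).trans (Finset.dvd_prod_of_mem (fun i => X i ^ d i) (Finset.mem_univ i))
    · exact Ideal.subset_span ⟨i, rfl⟩
  have hcoe : ∀ d : Fin m →₀ ℕ, ((∏ i, X i ^ d i : A) : ℂ) = ∏ i, (x i : ℂ) ^ d i := by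
    intro d
    simp [X]
  have hone : (1 : ℂ) = - ∑ d ∈ F.support.erase 0, (∏ i, (x i : ℂ) ^ d i) *
      (F.coeff d / F.coeff 0) := by
    have h1 : ∑ d ∈ F.support, F.coeff d * ∏ i, (x i : ℂ) ^ d i = 0 := by
      rw [← hFx, MvPolynomial.eval_eq']
    have h0 : (0 : Fin m →₀ ℕ) ∈ F.support := by
      rw [MvPolynomial.mem_support_iff]; exact hF0
    rw [← Finset.add_sum_erase _ _ h0] at h1
    have h2 : ∑ d ∈ F.support.erase 0, (∏ i, (x i : ℂ) ^ d i) * (F.coeff d / F.coeff 0)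
        = (∑ d ∈ F.support.erase 0, F.coeff d * ∏ i, (x i : ℂ) ^ d i) / F.coeff 0 := by
      rw [Finset.sum_div]
      refine Finset.sum_congr rfl fun d _ => ?_
      ring
    rw [h2]
    have h3 : F.coeff 0 ≠ 0 := hF0
    simp only [Finsupp.coe_zero, Pi.zero_apply, pow_zero, Finset.prod_const_one, mul_one] at h1
    field_simp
    linear_combination h1
  have hle : Subalgebra.toSubmodule (Algebra.adjoin A s) ≤
      I • Subalgebra.toSubmodule (Algebra.adjoin A s) := by
    intro y hy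
    have hy' : y ∈ Algebra.adjoin A s := hy
    have h1 : y = ∑ d ∈ F.support.erase 0, (∏ i, X i ^ d i : A) •
        (-(F.coeff d / F.coeff 0) * y) := by
      calc y = 1 * y := (one_mul y).symm
        _ = _ := by
          rw [hone, neg_mul, Finset.sum_mul, ← Finset.sum_neg_distrib]
          refine Finset.sum_congr rfl fun d _ => ?_
          rw [Algebra.smul_def]
          have : algebraMap A ℂ (∏ i, X i ^ d i) = ∏ i, (x i : ℂ) ^ d i := hcoe d
          rw [this]
          ring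
    rw [h1]
    refine Submodule.sum_mem _ fun d hd => ?_
    rw [Finset.mem_erase] at hd
    apply Submodule.smul_mem_smul (hmon d hd.1)
    change _ ∈ Algebra.adjoin A s
    exact mul_mem (neg_mem (Algebra.subset_adjoin ⟨d, hd.2, rfl⟩)) hy'
  obtain ⟨r, hr1, hr2⟩ := Submodule.exists_sub_one_mem_and_smul_eq_zero_of_fg_of_le_smul I _ hfg hle
  have hr0 : r = 0 := by
    have := hr2 1 (one_mem (Algebra.adjoin A s))
    rw [Algebra.smul_def, mul_one] at this
    exact Subtype.ext this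
  rw [hr0, zero_sub] at hr1
  have h1I : (1 : A) ∈ I := by simpa using neg_mem hr1
  obtain ⟨a, ha⟩ := (Ideal.mem_span_range_iff_exists_fun).1 h1I
  have hA : ∀ b : A, ∃ g : MvPolynomial (Fin m) ℚ, (b : ℂ) = ((MvPolynomial.aeval x g : ℝ) : ℂ) := by
    intro b
    have hb : (b : ℂ) ∈ Algebra.adjoin ℚ (Set.range fun i => (x i : ℂ)) := b.2
    rw [Algebra.adjoin_range_eq_range_aeval] at hb
    obtain ⟨g, hg⟩ := hb
    refine ⟨g, ?_⟩
    rw [← hg]
    exact MvPolynomial.aeval_algebraMap_apply ℂ x g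
  choose g hg using fun i => hA (a i)
  refine tr_rational m x z hinf g ?_
  have h2 : ((∑ i, a i * X i : A) : ℂ) = 1 := by rw [ha]; rfl
  have h3 : ((∑ i, MvPolynomial.aeval x (g i) * x i : ℝ) : ℂ) = 1 := by
    rw [← h2]
    push_cast
    refine Finset.sum_congr rfl fun i _ => ?_
    rw [hg i]
  exact_mod_cast h3

end Pool.Agent.Work.MP_03df5c_all
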